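import Pool.Agent.P8H58.DL.StmA

/-!
# Project DL, package CA: Clifford theory for `V ⋊ H` and a linear character of `V`
-/

set_option autoImplicit false

open scoped Classical

noncomputable section

namespace Pool.Agent.P8H21.DL

open Pool.Agent.Y63.NV
open Pool.Agent.P8H58.DL

section ops

variable {F : Type} [Field F] {V H : Type} [CommGroup V] [Group H] {φ : H →* MulAut V}
  {W : Type} [AddCommGroup W] [Module F W]

lemma l_ne (l : V →* F) (v : V) : l v ≠ 0 := by
  intro h
  have h1 : l v * l v⁻¹ = 1 := by rw [← map_mul, mul_inv_cancel, map_one]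
  rw [h, zero_mul] at h1
  exact zero_ne_one h1

lemma l_inv (l : V →* F) (v : V) : l v⁻¹ = (l v)⁻¹ := by
  have h1 : l v⁻¹ * l v = 1 := by rw [← map_mul, inv_mul_cancel, map_one]
  exact eq_inv_of_mul_eq_one_left h1

variable [Fintype V]

/-- `∑ l(v)⁻¹ ρ(v)` -/
def A (ρ : Representation F (V ⋊[φ] H) W) (l : V →* F) : Module.End F W :=
  ∑ v : V, (l v)⁻¹ • ρ (SemidirectProduct.inl v)

variable (ρ : Representation F (V ⋊[φ] H) W) (l : V →* F)

lemma inl_A (w : V) : ρ (SemidirectProduct.inl w) * A ρ l = l w • A ρ l := by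
  unfold A
  rw [Finset.mul_sum, Finset.smul_sum]
  refine Fintype.sum_equiv (Equiv.mulLeft w) _ _ fun v => ?_
  rw [Equiv.coe_mulLeft, mul_smul_comm, ← map_mul, ← map_mul, smul_smul]
  congr 1
  rw [map_mul, mul_inv, mul_inv_cancel_left₀ (l_ne l w)]

lemma A_inl (w : V) : A ρ l * ρ (SemidirectProduct.inl w) = l w • A ρ l := by
  unfold A
  rw [Finset.sum_mul, Finset.smul_sum]
  refine Fintype.sum_equiv (Equiv.mulRight w) _ _ fun v => ?_
  rw [Equiv.coe_mulRight, smul_mul_assoc, ← map_mul, ← map_mul, smul_smul]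
  congr 1
  rw [map_mul, mul_inv, mul_comm (l v)⁻¹, mul_inv_cancel_left₀ (l_ne l w)]

lemma A_sq : A ρ l * A ρ l = (Nat.card V : F) • A ρ l := by
  conv_lhs => lhs; unfold A
  rw [Finset.sum_mul]
  have h1 : ∀ v ∈ (Finset.univ : Finset V), ((l v)⁻¹ • ρ (SemidirectProduct.inl v)) * A ρ l = A ρ l := by
    intro v _
    rw [smul_mul_assoc, inl_A, smul_smul, inv_mul_cancel₀ (l_ne l v), one_smul]
  rw [Finset.sum_congr rfl h1, Finset.sum_const, Finset.card_univ, Nat.card_eq_fintype_card, Nat.cast_smul_eq_nsmul]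

lemma inr_inl (h : H) (v : V) : ρ (SemidirectProduct.inr h) * ρ (SemidirectProduct.inl v) =
    ρ (SemidirectProduct.inl (φ h v)) * ρ (SemidirectProduct.inr h) := by
  rw [← map_mul, ← map_mul, SemidirectProduct.inl_aut, map_inv, inv_mul_cancel_right]

lemma inr_A {h : H} (hh : ∀ v : V, l (φ h v) = l v) :
    ρ (SemidirectProduct.inr h) * A ρ l = A ρ l * ρ (SemidirectProduct.inr h) := by
  unfold A
  rw [Finset.mul_sum, Finset.sum_mul]
  refine Fintype.sum_equiv (φ h).toEquiv _ _ fun v => ?_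
  rw [mul_smul_comm, inr_inl, smul_mul_assoc]
  show (l v)⁻¹ • _ = (l (φ h v))⁻¹ • _
  rw [hh]
  rfl

lemma A_inr_A {h : H} (hh : ¬ ∀ v : V, l (φ h v) = l v) :
    A ρ l * ρ (SemidirectProduct.inr h) * A ρ l = 0 := by
  push Not at hh
  obtain ⟨v, hv⟩ := hh
  have h1 : A ρ l * ρ (SemidirectProduct.inr h) * (ρ (SemidirectProduct.inl v) * A ρ l) =
      l v • (A ρ l * ρ (SemidirectProduct.inr h) * A ρ l) := by
    rw [inl_A, mul_smul_comm]
  have h2 : A ρ l * ρ (SemidirectProduct.inr h) * (ρ (SemidirectProduct.inl v) * A ρ l) =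
      l (φ h v) • (A ρ l * ρ (SemidirectProduct.inr h) * A ρ l) := by
    rw [mul_assoc, ← mul_assoc (ρ (SemidirectProduct.inr h)), inr_inl, mul_assoc, ← mul_assoc (A ρ l), A_inl,
      smul_mul_assoc, mul_assoc]
  rw [h1] at h2
  have h3 : (l v - l (φ h v)) • (A ρ l * ρ (SemidirectProduct.inr h) * A ρ l) = 0 := by
    rw [sub_smul, h2, sub_self]
  exact (smul_eq_zero.1 h3).resolve_left (sub_ne_zero.2 (Ne.symm hv))

/-- elements of the range of `A` -/
lemma A_of_mem {w : W} (hw : w ∈ LinearMap.range (A ρ l)) : A ρ l w = (Nat.card V : F) • w := by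
  obtain ⟨u, rfl⟩ := hw
  have h := congrArg (fun T : Module.End F W => T u) (A_sq ρ l)
  exact h

end ops

section main

variable {p : ℕ} {F : Type} [Field F] {V H : Type} [CommGroup V] [Group H] [Fintype V] {φ : H →* MulAut V}
  {l : V →* F} {S : Subgroup H}
  {W : Type} [AddCommGroup W] [Module F W] (ρ : Representation F (V ⋊[φ] H) W)

/-- the representation of `S` on `W_l` -/
def res (hS : ∀ h : H, h ∈ S ↔ ∀ v : V, l (φ h v) = l v) : Representation F S (LinearMap.range (A ρ l)) where
  toFun s := (ρ (SemidirectProduct.inr (s : H))).restrict (by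
    rintro _ ⟨w, rfl⟩
    refine ⟨ρ (SemidirectProduct.inr (s : H)) w, ?_⟩
    have h := congrArg (fun T : Module.End F W => T w) (inr_A ρ l ((hS s).1 s.2))
    exact h.symm)
  map_one' := by
    ext x
    simp
  map_mul' s t := by
    ext x
    simp

lemma res_apply (hS : ∀ h : H, h ∈ S ↔ ∀ v : V, l (φ h v) = l v) (s : S) (w : LinearMap.range (A ρ l)) :
    ((res ρ hS s w : LinearMap.range (A ρ l)) : W) = ρ (SemidirectProduct.inr (s : H)) w := rfl

lemma comp_eq [FiniteDimensional F W] (s : S) : comp l S ρ.character s =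
    (Nat.card V : F)⁻¹ * LinearMap.trace F W (A ρ l * ρ (SemidirectProduct.inr (s : H))) := by
  unfold comp A
  congr 1
  rw [finsum_eq_sum_of_fintype, Finset.sum_mul, map_sum]
  refine Finset.sum_congr rfl fun v _ => ?_
  rw [smul_mul_assoc, map_smul, smul_eq_mul, ← map_mul, ← SemidirectProduct.mk_eq_inl_mul_inr]
  rfl

lemma trace_res [FiniteDimensional F W] (hS : ∀ h : H, h ∈ S ↔ ∀ v : V, l (φ h v) = l v)
    (hc : (Nat.card V : F) ≠ 0) (s : S) : (res ρ hS).character s = comp l S ρ.character s := by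
  rw [comp_eq, ← smul_eq_mul, ← map_smul]
  set T : Module.End F W := (Nat.card V : F)⁻¹ • (A ρ l * ρ (SemidirectProduct.inr (s : H))) with hT
  have h1 : ∀ x, T x ∈ LinearMap.range (A ρ l) := by
    intro x
    rw [hT]
    exact Submodule.smul_mem _ _ ⟨_, rfl⟩
  rw [← LinearMap.trace_restrict_eq_of_forall_mem (LinearMap.range (A ρ l)) T h1]
  unfold Representation.character
  congr 1
  refine LinearMap.ext fun x => Subtype.ext ?_
  rw [res_apply, LinearMap.restrict_apply]
  simp only
  rw [hT, LinearMap.smul_apply, Module.End.mul_apply]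
  have h2 := A_of_mem ρ l ((res ρ hS s x).2)
  rw [res_apply] at h2
  rw [h2, smul_smul, inv_mul_cancel₀ hc, one_smul]

/-- the submodule generated by the translates of a submodule -/
def gen (U : Submodule F W) : Submodule F W :=
  Submodule.span F {w | ∃ (h : H) (u : W), u ∈ U ∧ w = ρ (SemidirectProduct.inr h) u}

lemma irr_res [FiniteDimensional F W] (hS : ∀ h : H, h ∈ S ↔ ∀ v : V, l (φ h v) = l v)
    (hc : (Nat.card V : F) ≠ 0) (hρ : ρ.IsIrreducible) (hA : A ρ l ≠ 0) : (res ρ hS).IsIrreducible := by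
  have hnt : ∃ w, A ρ l w ≠ 0 := by
    by_contra h
    push Not at h
    exact hA (LinearMap.ext h)
  obtain ⟨w0, hw0⟩ := hnt
  have : Nontrivial (Subrepresentation (res ρ hS)) := by
    refine ⟨⊥, ⊤, fun h => hw0 ?_⟩
    have h1 : (⟨A ρ l w0, ⟨w0, rfl⟩⟩ : LinearMap.range (A ρ l)) ∈ (⊤ : Subrepresentation (res ρ hS)) := trivial
    rw [← h] at h1
    have h2 : (⟨A ρ l w0, ⟨w0, rfl⟩⟩ : LinearMap.range (A ρ l)) = 0 := h1
    exact congrArg Subtype.val h2
  refine { eq_bot_or_eq_top := fun U => ?_ }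
  by_cases hU : U = ⊥
  · exact Or.inl hU
  right
  set U' : Submodule F W := U.toSubmodule.map (LinearMap.range (A ρ l)).subtype with hU'
  have hU'l : ∀ u ∈ U', u ∈ LinearMap.range (A ρ l) := by
    rintro _ ⟨u, _, rfl⟩
    exact u.2
  have hlu : ∀ u ∈ U', ∀ v : V, ρ (SemidirectProduct.inl v) u = l v • u := by
    intro u hu v
    obtain ⟨w, rfl⟩ := hU'l u hu
    exact congrArg (fun T : Module.End F W => T w) (inl_A ρ l v)
  have hUs : ∀ u ∈ U', ∀ s ∈ S, ρ (SemidirectProduct.inr s) u ∈ U' := by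
    rintro _ ⟨u, hu, rfl⟩ s hs
    exact ⟨res ρ hS ⟨s, hs⟩ u, U.apply_mem_toSubmodule ⟨s, hs⟩ hu, rfl⟩
  -- the generated subrepresentation
  have hinv : ∀ (g : V ⋊[φ] H) ⦃v : W⦄, v ∈ gen ρ U' → ρ g v ∈ gen ρ U' := by
    intro g v hv
    unfold gen at hv ⊢
    induction hv using Submodule.span_induction with
    | mem x hx =>
      obtain ⟨h, u, hu, rfl⟩ := hx
      have h1 : ρ g (ρ (SemidirectProduct.inr h) u) =
          l (φ (g.right * h)⁻¹ g.left) • ρ (SemidirectProduct.inr (g.right * h)) u := by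
        have h2 : g = SemidirectProduct.inl g.left * SemidirectProduct.inr g.right :=
          (SemidirectProduct.inl_left_mul_inr_right g).symm
        have h3 : g * SemidirectProduct.inr h = SemidirectProduct.inr (g.right * h) *
            SemidirectProduct.inl (φ (g.right * h)⁻¹ g.left) := by
          conv_lhs => rw [h2]
          rw [SemidirectProduct.inl_aut, inv_inv, map_inv, ← mul_assoc, ← mul_assoc, mul_inv_cancel, one_mul, mul_assoc,
            ← map_mul]
        calc ρ g (ρ (SemidirectProduct.inr h) u) = (ρ g * ρ (SemidirectProduct.inr h)) u := rfl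
          _ = (ρ (SemidirectProduct.inr (g.right * h)) *
              ρ (SemidirectProduct.inl (φ (g.right * h)⁻¹ g.left))) u := by
            rw [← map_mul, h3, map_mul]
          _ = ρ (SemidirectProduct.inr (g.right * h)) (ρ (SemidirectProduct.inl (φ (g.right * h)⁻¹ g.left)) u) := rfl
          _ = _ := by rw [hlu u hu, map_smul]
      rw [h1]
      exact Submodule.smul_mem _ _ (Submodule.subset_span ⟨_, u, hu, rfl⟩)
    | zero => rw [map_zero]; exact Submodule.zero_mem _
    | add x y _ _ hx hy => rw [map_add]; exact Submodule.add_mem _ hx hy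
    | smul a x _ hx => rw [map_smul]; exact Submodule.smul_mem _ a hx
  set M : Subrepresentation ρ := ⟨gen ρ U', hinv⟩ with hM
  have hMtop : M = ⊤ := by
    refine (hρ.eq_bot_or_eq_top M).resolve_left fun h => hU ?_
    apply Subrepresentation.toSubmodule_injective
    rw [show (⊥ : Subrepresentation (res ρ hS)).toSubmodule = ⊥ from rfl, Submodule.eq_bot_iff]
    intro u hu
    have h1 : ρ (SemidirectProduct.inr 1) (u : W) ∈ gen ρ U' := Submodule.subset_span ⟨1, u, ⟨u, hu, rfl⟩, rfl⟩
    have h2 : ρ (SemidirectProduct.inr 1) (u : W) ∈ M := h1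
    rw [h, map_one, map_one] at h2
    exact Subtype.ext h2
  have hAM : ∀ m ∈ gen ρ U', A ρ l m ∈ U' := by
    intro m hm
    unfold gen at hm
    induction hm using Submodule.span_induction with
    | mem x hx =>
      obtain ⟨h, u, hu, rfl⟩ := hx
      by_cases hh : h ∈ S
      · have h1 : ρ (SemidirectProduct.inr h) u ∈ U' := hUs u hu h hh
        rw [A_of_mem ρ l (hU'l _ h1)]
        exact Submodule.smul_mem _ _ h1
      · have h1 := congrArg (fun T : Module.End F W => T u) (A_inr_A ρ l (fun h' => hh ((hS h).2 h')))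
        have h2 : A ρ l (ρ (SemidirectProduct.inr h) (A ρ l u)) = 0 := h1
        rw [A_of_mem ρ l (hU'l _ hu), map_smul, map_smul] at h2
        rw [(smul_eq_zero.1 h2).resolve_left hc]
        exact Submodule.zero_mem _
    | zero => rw [map_zero]; exact Submodule.zero_mem _
    | add x y _ _ hx hy => rw [map_add]; exact Submodule.add_mem _ hx hy
    | smul a x _ hx => rw [map_smul]; exact Submodule.smul_mem _ a hx
  apply Subrepresentation.toSubmodule_injective
  rw [show (⊤ : Subrepresentation (res ρ hS)).toSubmodule = ⊤ from rfl, Submodule.eq_top_iff']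
  intro x
  have h1 : (x : W) ∈ M := by rw [hMtop]; trivial
  have h2 := hAM _ h1
  rw [A_of_mem ρ l x.2] at h2
  have h3 : (x : W) ∈ U' := by
    have := Submodule.smul_mem U' ((Nat.card V : F)⁻¹) h2
    rwa [smul_smul, inv_mul_cancel₀ hc, one_smul] at this
  obtain ⟨y, hy, hyx⟩ := h3
  have : y = x := Subtype.ext hyx
  rw [← this]
  exact hy

end main

theorem card_ne {p : ℕ} {F : Type} [Field F] [CharP F p] {V : Type} (h : ¬ p ∣ Nat.card V) :
    (Nat.card V : F) ≠ 0 := fun h0 => h ((CharP.cast_eq_zero_iff F p _).1 h0)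

theorem ca : S_CA := by
  intro p _ F _ _ _ V H _ _ _ _ φ l S hD W _ _ _ ρ hρ
  have := Fintype.ofFinite V
  have hc : (Nat.card V : F) ≠ 0 := card_ne hD.1
  have e1 : ∑ᶠ v : V, (l v)⁻¹ • ρ (SemidirectProduct.inl v) = A ρ l := by
    rw [finsum_eq_sum_of_fintype]
    rfl
  rw [e1]
  by_cases hA : A ρ l = 0
  · exact Or.inl hA
  · right
    refine ⟨LinearMap.range (A ρ l), inferInstance, inferInstance, inferInstance, res ρ hD.2,
      irr_res ρ hD.2 hc hρ hA, ?_⟩
    funext s
    exact (trace_res ρ hD.2 hc s).symm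

end Pool.Agent.P8H21.DL
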