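import Pool.Agent.P8H21.DL.Ca

/-!
# Project DL, package CD: the values of the central characters
-/

set_option autoImplicit false

open scoped Classical

noncomputable section

namespace Pool.Agent.P8H21.DL

open Pool.Agent.Y63.NV
open Pool.Agent.P8H58.DL

instance finSd {V H : Type} [CommGroup V] [Group H] [Finite V] [Finite H] (φ : H →* MulAut V) :
    Finite (V ⋊[φ] H) := Finite.of_equiv _ SemidirectProduct.equivProd.symm

section

variable {F : Type} [Field F] {G : Type} [Group G] [Fintype G] {W : Type} [AddCommGroup W] [Module F W]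

/-- the operator `∑ f(g) ρ(g)` -/
def Rf (ρ : Representation F G W) (f : G → F) : Module.End F W := ∑ g : G, f g • ρ g

lemma Rf_comm (ρ : Representation F G W) {f : G → F} (hf : IsClassFun f) (x : G) :
    ρ x * Rf ρ f = Rf ρ f * ρ x := by
  unfold Rf
  rw [Finset.mul_sum, Finset.sum_mul]
  refine Fintype.sum_equiv (MulAut.conj x).toEquiv _ _ fun g => ?_
  show ρ x * f g • ρ g = f (x * g * x⁻¹) • ρ (x * g * x⁻¹) * ρ x
  rw [hf x g, mul_smul_comm, smul_mul_assoc, ← map_mul, ← map_mul, inv_mul_cancel_right]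

end

theorem cd : S_CD := by
  intro p _ F _ _ _ V H _ _ _ _ φ l S hD θ hθ f hf c hc s
  obtain ⟨W, _, _, _, ρ, hρ, rfl⟩ := hθ
  have := Fintype.ofFinite V
  have := Fintype.ofFinite H
  have := Fintype.ofFinite (V ⋊[φ] H)
  have hV : (Nat.card V : F) ≠ 0 := card_ne hD.1
  set X : V ⋊[φ] H → F := fun g =>
    LinearMap.trace F W (A ρ l * ρ g * ρ (SemidirectProduct.inr (s : H))) with hX
  have hsA := inr_A ρ l ((hD.2 s).1 s.2)
  -- `X` vanishes outside `S`
  have hX0 : ∀ g : V ⋊[φ] H, g.right ∉ S → X g = 0 := by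
    intro g hg
    have h1 : A ρ l * ρ g * A ρ l = 0 := by
      have h2 : ρ g = ρ (SemidirectProduct.inl g.left) * ρ (SemidirectProduct.inr g.right) := by
        rw [← map_mul, SemidirectProduct.inl_left_mul_inr_right]
      rw [h2, ← mul_assoc, A_inl, smul_mul_assoc, smul_mul_assoc,
        A_inr_A ρ l (fun h => hg ((hD.2 g.right).2 h)), smul_zero]
    have h3 : (Nat.card V : F) * X g = 0 := by
      have h4 : LinearMap.trace F W (A ρ l * ρ g * A ρ l * ρ (SemidirectProduct.inr (s : H))) =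
          (Nat.card V : F) * X g := by
        rw [mul_assoc (A ρ l * ρ g), ← hsA, ← mul_assoc, LinearMap.trace_mul_comm, ← mul_assoc, ← mul_assoc, A_sq,
          smul_mul_assoc, smul_mul_assoc, map_smul, smul_eq_mul]
      rw [← h4, h1, zero_mul, map_zero]
    exact (mul_eq_zero.1 h3).resolve_left hV
  have hR : ∀ x, LinearMap.trace F W (Rf ρ f * ρ x) = c * LinearMap.trace F W (ρ x) := by
    intro x
    have h1 := hc x
    rw [finsum_eq_sum_of_fintype] at h1
    unfold Representation.character at h1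
    rw [← h1]
    unfold Rf
    rw [Finset.sum_mul, map_sum]
    refine Finset.sum_congr rfl fun g _ => ?_
    rw [smul_mul_assoc, map_smul, smul_eq_mul, ← map_mul]
  have hRA : LinearMap.trace F W (Rf ρ f * (A ρ l * ρ (SemidirectProduct.inr (s : H)))) =
      c * LinearMap.trace F W (A ρ l * ρ (SemidirectProduct.inr (s : H))) := by
    unfold A
    rw [Finset.sum_mul, Finset.mul_sum, map_sum, map_sum, Finset.mul_sum]
    refine Finset.sum_congr rfl fun v _ => ?_
    rw [smul_mul_assoc, mul_smul_comm, map_smul, map_smul, ← map_mul, hR, smul_eq_mul, smul_eq_mul]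
    ring
  have hRA2 : LinearMap.trace F W (Rf ρ f * (A ρ l * ρ (SemidirectProduct.inr (s : H)))) = ∑ g, f g * X g := by
    have h1 : Rf ρ f * A ρ l = A ρ l * Rf ρ f := by
      unfold A
      rw [Finset.mul_sum, Finset.sum_mul]
      refine Finset.sum_congr rfl fun v _ => ?_
      rw [mul_smul_comm, smul_mul_assoc, Rf_comm ρ hf]
    rw [← mul_assoc, h1]
    unfold Rf
    rw [Finset.mul_sum, Finset.sum_mul, map_sum]
    refine Finset.sum_congr rfl fun g _ => ?_
    rw [mul_smul_comm, smul_mul_assoc, map_smul, smul_eq_mul]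
  rw [comp_eq, ← mul_assoc, mul_comm c, mul_assoc, ← hRA, hRA2, finsum_eq_sum_of_fintype, Finset.mul_sum]
  have e1 : ∀ t : S, cl l S f t * comp l S ρ.character (t * s) =
      ∑ v : V, (Nat.card V : F)⁻¹ * (f ⟨v, t⟩ * X ⟨v, t⟩) := by
    intro t
    rw [comp_eq]
    unfold cl
    rw [finsum_eq_sum_of_fintype, Finset.sum_mul]
    refine Finset.sum_congr rfl fun v _ => ?_
    have h2 : X ⟨v, t⟩ = l v * LinearMap.trace F W (A ρ l * ρ (SemidirectProduct.inr ((t * s : S) : H))) := by
      rw [hX]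
      simp only
      rw [SemidirectProduct.mk_eq_inl_mul_inr, map_mul ρ, ← mul_assoc, A_inl, smul_mul_assoc, smul_mul_assoc, map_smul,
        smul_eq_mul, mul_assoc (A ρ l), ← map_mul ρ, ← map_mul SemidirectProduct.inr]
      rfl
    rw [h2]
    ring
  rw [Finset.sum_congr rfl fun t _ => e1 t, ← Fintype.sum_prod_type' (f := fun (t : S) (v : V) =>
    (Nat.card V : F)⁻¹ * (f ⟨v, t⟩ * X ⟨v, t⟩))]
  refine Fintype.sum_of_injective (fun x : S × V => (⟨x.2, (x.1 : H)⟩ : V ⋊[φ] H)) ?_ _ _ ?_ ?_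
  · rintro ⟨t, v⟩ ⟨t', v'⟩ h
    have h1 := congrArg SemidirectProduct.left h
    have h2 := congrArg SemidirectProduct.right h
    simp only at h1 h2
    rw [Prod.mk.injEq]
    exact ⟨Subtype.ext h2, h1⟩
  · intro g hg
    have : g.right ∉ S := fun h => hg ⟨(⟨g.right, h⟩, g.left), rfl⟩
    rw [hX0 g this, mul_zero, mul_zero]
  · rintro ⟨t, v⟩
    rfl

end Pool.Agent.P8H21.DL
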