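import Pool.Agent.P8H58.DL.StmA

/-!
# Project DL, part WSM: sums over the `p`-subgroups of `V ⋊ H`
-/

set_option autoImplicit false
set_option linter.unusedSectionVars false

open scoped BigOperators Classical

noncomputable section

namespace Pool.Agent.P8H21.DL.Wsm

open SemidirectProduct (inl inr rightHom)

section gen

variable {G : Type} [Group G]

/-- conjugate subgroup -/
def cj (g : G) (Q : Subgroup G) : Subgroup G := Q.map (MulAut.conj g).toMonoidHom

theorem mem_cj {g x : G} {Q : Subgroup G} : x ∈ cj g Q ↔ g⁻¹ * x * g ∈ Q := by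
  constructor
  · rintro ⟨y, hy, rfl⟩
    change g⁻¹ * (g * y * g⁻¹) * g ∈ Q
    have : g⁻¹ * (g * y * g⁻¹) * g = y := by group
    rw [this]
    exact hy
  · intro h
    refine ⟨g⁻¹ * x * g, h, ?_⟩
    change g * (g⁻¹ * x * g) * g⁻¹ = x
    group

theorem cj_one (Q : Subgroup G) : cj (1 : G) Q = Q := by
  ext x
  rw [mem_cj]
  simp

theorem cj_mul (g h : G) (Q : Subgroup G) : cj (g * h) Q = cj g (cj h Q) := by
  ext x
  rw [mem_cj, mem_cj, mem_cj]
  have : (g * h)⁻¹ * x * (g * h) = h⁻¹ * (g⁻¹ * x * g) * h := by group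
  rw [this]

theorem mem_norm {x : G} {Q : Subgroup G} :
    x ∈ Subgroup.normalizer (Q : Set G) ↔ cj x Q = Q := by
  rw [Subgroup.mem_normalizer_iff]
  constructor
  · intro h
    ext y
    rw [mem_cj]
    have h1 := h (x⁻¹ * y * x)
    have e : x * (x⁻¹ * y * x) * x⁻¹ = y := by group
    rw [e] at h1
    exact h1
  · intro h y
    have h1 : x * y * x⁻¹ ∈ cj x Q ↔ x⁻¹ * (x * y * x⁻¹) * x ∈ Q := mem_cj
    have e : x⁻¹ * (x * y * x⁻¹) * x = y := by group
    rw [e, h] at h1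
    exact h1.symm

theorem card_norm_cj (g : G) (Q : Subgroup G) :
    Nat.card (Subgroup.normalizer (cj g Q : Set G)) =
      Nat.card (Subgroup.normalizer (Q : Set G)) := by
  have h : Subgroup.normalizer (cj g Q : Set G) = cj g (Subgroup.normalizer (Q : Set G)) := by
    ext x
    rw [mem_norm, mem_cj, mem_norm, ← cj_mul]
    constructor
    · intro h
      have h1 : cj g⁻¹ (cj (x * g) Q) = cj g⁻¹ (cj g Q) := by rw [h]
      rw [← cj_mul, ← cj_mul, inv_mul_cancel, cj_one] at h1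
      rw [← h1]
      congr 1
      group
    · intro h
      have h1 : cj g (cj (g⁻¹ * x * g) Q) = cj g Q := by rw [h]
      rw [← cj_mul] at h1
      rw [← h1]
      congr 1
      group
  rw [h]
  exact Nat.card_congr (Subgroup.equivMapOfInjective _ _ (MulAut.conj g).injective).toEquiv.symm

end gen

section sd

variable {V H : Type} [CommGroup V] [Group H] [Fintype V] [Fintype H] {φ : H →* MulAut V}
  {p : ℕ} [hp : Fact p.Prime]

instance fin_sd : Fintype (V ⋊[φ] H) := Fintype.ofEquiv (V × H)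
    ⟨fun x => ⟨x.1, x.2⟩, fun x => (x.left, x.right), fun _ => rfl, fun _ => rfl⟩

theorem inl_conj (v : V) (h : H) :
    (inl v * inr h * (inl v)⁻¹ : V ⋊[φ] H) = ⟨v * (φ h v)⁻¹, h⟩ := by
  refine SemidirectProduct.ext ?_ ?_
  · simp
  · simp

/-- every `p`-subgroup is conjugate under `V` to a subgroup of the complement -/
theorem exists_conj (hV : ¬ p ∣ Nat.card V) (Q : Subgroup (V ⋊[φ] H)) (hQ : IsPGroup p Q) :
    ∃ v : V, ∀ x ∈ Q, x = inl v * inr x.right * (inl v)⁻¹ := by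
  have hc : (Nat.card Q).Coprime (Nat.card V) := by
    obtain ⟨n, hn⟩ := IsPGroup.iff_card.mp hQ
    rw [hn]
    exact Nat.Coprime.pow_left n ((Nat.Prime.coprime_iff_not_dvd hp.out).mpr hV)
  obtain ⟨t, ht⟩ : ∃ t : ℕ, Nat.card Q * t ≡ 1 [MOD Nat.card V] := by
    have h1 := Nat.ModEq.pow_totient hc
    have h2 : 0 < (Nat.card V).totient := Nat.totient_pos.mpr Nat.card_pos
    refine ⟨Nat.card Q ^ ((Nat.card V).totient - 1), ?_⟩
    rwa [← pow_succ', Nat.sub_add_cancel h2]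
  set w : V := ∏ y : Q, (y : V ⋊[φ] H).left with hw
  refine ⟨w ^ t, fun x hx => ?_⟩
  have h1 : x.left ^ Nat.card Q * φ x.right w = w := by
    have h2 : w = ∏ y : Q, ((x * (y : V ⋊[φ] H)) : V ⋊[φ] H).left := by
      rw [hw]
      exact (Fintype.prod_equiv (Equiv.mulLeft (⟨x, hx⟩ : Q)) _ _ fun y => rfl).symm
    conv_rhs => rw [h2]
    simp only [SemidirectProduct.mul_left]
    rw [Finset.prod_mul_distrib, Finset.prod_const, Finset.card_univ, ← Nat.card_eq_fintype_card,
      hw, map_prod]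
  rw [inl_conj]
  refine SemidirectProduct.ext ?_ rfl
  change x.left = w ^ t * (φ x.right (w ^ t))⁻¹
  have h3 : x.left ^ (Nat.card Q * t) = x.left := by
    have h4 : orderOf x.left ∣ Nat.card V := orderOf_dvd_natCard _
    have h5 : x.left ^ (Nat.card Q * t) = x.left ^ 1 :=
      pow_eq_pow_iff_modEq.mpr (ht.of_dvd h4)
    rw [h5, pow_one]
  rw [eq_mul_inv_iff_mul_eq, map_pow]
  conv_lhs => rw [← h3]
  rw [pow_mul, ← mul_pow, h1]

theorem exists_cj (hV : ¬ p ∣ Nat.card V) (Q : Subgroup (V ⋊[φ] H)) (hQ : IsPGroup p Q) :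
    ∃ v : V, Q = cj (inl v) ((Q.map rightHom).map inr) := by
  obtain ⟨v, hv⟩ := exists_conj hV Q hQ
  refine ⟨v, ?_⟩
  ext x
  rw [mem_cj]
  constructor
  · intro hx
    refine ⟨x.right, ⟨x, hx, rfl⟩, ?_⟩
    have h1 := hv x hx
    conv_rhs => rw [h1]
    group
  · rintro ⟨h, ⟨y, hy, rfl⟩, hyx⟩
    have h1 := hv y hy
    have h2 : x = inl v * inr y.right * (inl v)⁻¹ := by
      change (inr y.right : V ⋊[φ] H) = _ at hyx
      rw [hyx]
      group
    rw [h2, ← h1]
    exact hy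

theorem right_cj (v : V) (R : Subgroup H) :
    (cj (inl v : V ⋊[φ] H) (R.map inr)).map rightHom = R := by
  unfold cj
  rw [Subgroup.map_map, Subgroup.map_map]
  have : ((rightHom : V ⋊[φ] H →* H).comp (MulAut.conj (inl v : V ⋊[φ] H)).toMonoidHom).comp
      inr = MonoidHom.id H := by
    refine MonoidHom.ext fun h => ?_
    change (inl v * inr h * (inl v)⁻¹ : V ⋊[φ] H).right = h
    rw [inl_conj]
  rw [this, Subgroup.map_id]

theorem cj_inr_sub (x : V ⋊[φ] H) (P : Subgroup H) :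
    cj x (P.map inr) = P.map inr ↔
      cj x.right P = P ∧ ∀ q ∈ P, φ q x.left = x.left := by
  have key : ∀ q : H, (x * inr q * x⁻¹ : V ⋊[φ] H) =
      ⟨x.left * (φ (x.right * q * x.right⁻¹) x.left)⁻¹, x.right * q * x.right⁻¹⟩ := by
    intro q
    refine SemidirectProduct.ext ?_ ?_
    · simp [MulAut.mul_apply]
    · simp
  constructor
  · intro h
    have h1 : cj x.right P = P := by
      have h2 := congrArg (fun W : Subgroup (V ⋊[φ] H) => W.map rightHom) h
      have h3 : (P.map (inr : H →* V ⋊[φ] H)).map rightHom = P := by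
        rw [Subgroup.map_map, SemidirectProduct.rightHom_comp_inr, Subgroup.map_id]
      have h4 : (cj x (P.map inr)).map rightHom = cj x.right P := by
        unfold cj
        rw [Subgroup.map_map, Subgroup.map_map]
        congr 1
      rwa [h3, h4] at h2
    refine ⟨h1, fun q hq => ?_⟩
    have h5 : x.right⁻¹ * q * x.right ∈ P := by
      rw [← mem_cj, h1]
      exact hq
    have h6 : (x * inr (x.right⁻¹ * q * x.right) * x⁻¹ : V ⋊[φ] H) ∈ P.map inr := by
      rw [← h]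
      exact ⟨_, ⟨_, h5, rfl⟩, rfl⟩
    rw [key] at h6
    obtain ⟨r, _, hr⟩ := h6
    have h7 := congrArg SemidirectProduct.left hr
    have e : x.right * (x.right⁻¹ * q * x.right) * x.right⁻¹ = q := by group
    rw [e] at h7
    change (1 : V) = x.left * (φ q x.left)⁻¹ at h7
    exact (mul_inv_eq_one.mp h7.symm).symm
  · rintro ⟨h1, h2⟩
    have hc : ∀ q ∈ P, x.right * q * x.right⁻¹ ∈ P := by
      intro q hq
      have : x.right * q * x.right⁻¹ ∈ cj x.right P := ⟨q, hq, rfl⟩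
      rwa [h1] at this
    have key2 : ∀ q ∈ P, (x * inr q * x⁻¹ : V ⋊[φ] H) = inr (x.right * q * x.right⁻¹) := by
      intro q hq
      rw [key]
      refine SemidirectProduct.ext ?_ rfl
      change x.left * (φ (x.right * q * x.right⁻¹) x.left)⁻¹ = 1
      rw [h2 _ (hc q hq), mul_inv_cancel]
    ext y
    constructor
    · rintro ⟨_, ⟨q, hq, rfl⟩, rfl⟩
      change (x * inr q * x⁻¹ : V ⋊[φ] H) ∈ _
      rw [key2 q hq]
      exact ⟨_, hc q hq, rfl⟩
    · rintro ⟨q, hq, rfl⟩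
      have h5 : x.right⁻¹ * q * x.right ∈ P := by
        rw [← mem_cj, h1]
        exact hq
      refine ⟨inr (x.right⁻¹ * q * x.right), ⟨_, h5, rfl⟩, ?_⟩
      change (x * inr (x.right⁻¹ * q * x.right) * x⁻¹ : V ⋊[φ] H) = inr q
      rw [key2 _ h5]
      congr 1
      group

/-- the number of elements of `V` which normalise `Q` -/
def NV (Q : Subgroup (V ⋊[φ] H)) : ℕ := Nat.card {v : V // cj (inl v : V ⋊[φ] H) Q = Q}

theorem NV_pos (Q : Subgroup (V ⋊[φ] H)) : 0 < NV Q := by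
  unfold NV
  have : Nonempty {v : V // cj (inl v : V ⋊[φ] H) Q = Q} :=
    ⟨⟨1, by rw [map_one]; exact cj_one _⟩⟩
  exact Nat.card_pos

theorem NV_conj (w : V) (Q : Subgroup (V ⋊[φ] H)) : NV (cj (inl w : V ⋊[φ] H) Q) = NV Q := by
  unfold NV
  refine Nat.card_congr (Equiv.subtypeEquivRight fun v => ?_)
  rw [← cj_mul, ← map_mul, mul_comm, map_mul, cj_mul]
  constructor
  · intro h
    have h1 := congrArg (cj (inl w : V ⋊[φ] H)⁻¹) h
    rwa [← cj_mul, ← cj_mul (inl w)⁻¹, inv_mul_cancel, cj_one, cj_one] at h1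
  · intro h
    rw [h]

/-- the conjugates of the subgroups of the complement -/
def Psi (φ : H →* MulAut V) (w : {R : Subgroup H // IsPGroup p R} × V) : Subgroup (V ⋊[φ] H) :=
  cj (inl w.2) (w.1.1.map inr)

theorem Psi_p (w : {R : Subgroup H // IsPGroup p R} × V) : IsPGroup p (Psi φ w) :=
  (w.1.2.map _).map _

theorem count_Psi (hV : ¬ p ∣ Nat.card V) (Q : Subgroup (V ⋊[φ] H)) (hQ : IsPGroup p Q) :
    (Finset.univ.filter (fun w : {R : Subgroup H // IsPGroup p R} × V => Psi φ w = Q)).card =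
      NV Q := by
  obtain ⟨v₀, hv₀⟩ := exists_cj hV Q hQ
  unfold NV
  rw [← Fintype.card_subtype, ← Nat.card_eq_fintype_card]
  symm
  refine Nat.card_congr
    ⟨fun v => ⟨(⟨Q.map rightHom, hQ.map _⟩, v.1 * v₀), ?_⟩,
      fun w => ⟨w.1.2 * v₀⁻¹, ?_⟩, ?_, ?_⟩
  · change cj (inl (v.1 * v₀)) ((Q.map rightHom).map inr) = Q
    rw [map_mul, cj_mul, ← hv₀]
    exact v.2
  · have h1 : cj (inl w.1.2) (w.1.1.1.map inr) = Q := w.2
    have h2 : Q.map rightHom = w.1.1.1 :=
      (congrArg (Subgroup.map rightHom) h1).symm.trans (right_cj _ _)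
    rw [map_mul, cj_mul]
    have h3 : cj (inl v₀⁻¹ : V ⋊[φ] H) Q = (Q.map rightHom).map inr := by
      conv_lhs => rw [hv₀]
      rw [← cj_mul, ← map_mul, inv_mul_cancel, map_one, cj_one]
    rw [h3, h2]
    exact h1
  · intro v
    apply Subtype.ext
    change v.1 * v₀ * v₀⁻¹ = v.1
    group
  · intro w
    have h1 : cj (inl w.1.2) (w.1.1.1.map inr) = Q := w.2
    have h2 : Q.map rightHom = w.1.1.1 :=
      (congrArg (Subgroup.map rightHom) h1).symm.trans (right_cj _ _)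
    apply Subtype.ext
    refine Prod.ext (Subtype.ext h2) ?_
    change w.1.2 * v₀⁻¹ * v₀ = w.1.2
    group

theorem card_norm_inr (R : Subgroup H) :
    Nat.card (Subgroup.normalizer ((R.map (inr : H →* V ⋊[φ] H) : Subgroup (V ⋊[φ] H)) :
      Set (V ⋊[φ] H))) = NV (R.map (inr : H →* V ⋊[φ] H)) *
        Nat.card (Subgroup.normalizer (R : Set H)) := by
  have key : ∀ x : V ⋊[φ] H, x ∈ Subgroup.normalizer
      ((R.map (inr : H →* V ⋊[φ] H) : Subgroup (V ⋊[φ] H)) : Set (V ⋊[φ] H)) ↔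
      cj (inl x.left : V ⋊[φ] H) (R.map inr) = R.map inr ∧
        x.right ∈ Subgroup.normalizer (R : Set H) := by
    intro x
    rw [mem_norm, mem_norm, cj_inr_sub, cj_inr_sub]
    change _ ↔ (cj (1 : H) R = R ∧ ∀ q ∈ R, φ q x.left = x.left) ∧ cj x.right R = R
    rw [cj_one]
    exact ⟨fun h => ⟨⟨rfl, h.2⟩, h.1⟩, fun h => ⟨h.2, h.1.2⟩⟩
  unfold NV
  rw [← Nat.card_prod]
  refine Nat.card_congr ⟨fun x => (⟨x.1.left, ((key x.1).mp x.2).1⟩,
      ⟨x.1.right, ((key x.1).mp x.2).2⟩),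
    fun y => ⟨⟨y.1.1, y.2.1⟩, (key _).mpr ⟨y.1.2, y.2.2⟩⟩, fun x => rfl, fun y => rfl⟩

theorem wsm_aux (hV : ¬ p ∣ Nat.card V) (b : Subgroup (V ⋊[φ] H) → ℚ)
    (hb : ∀ (g : V ⋊[φ] H) (Q : Subgroup (V ⋊[φ] H)), b (cj g Q) = b Q) :
    ∑ Q : Subgroup (V ⋊[φ] H), (if IsPGroup p Q then
      (Nat.card (Subgroup.normalizer (Q : Set (V ⋊[φ] H))) : ℚ) * b Q else 0) =
    (Nat.card V : ℚ) * ∑ R : Subgroup H, (if IsPGroup p R then
      (Nat.card (Subgroup.normalizer (R : Set H)) : ℚ) *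
        b (R.map (inr : H →* V ⋊[φ] H)) else 0) := by
  set f : Subgroup (V ⋊[φ] H) → ℚ := fun Q =>
    (Nat.card (Subgroup.normalizer (Q : Set (V ⋊[φ] H))) : ℚ) * b Q with hf
  have h1 : ∀ Q : Subgroup (V ⋊[φ] H), (if IsPGroup p Q then f Q else 0) =
      ∑ w : {R : Subgroup H // IsPGroup p R} × V,
        if Psi φ w = Q then (NV Q : ℚ)⁻¹ * f Q else 0 := by
    intro Q
    by_cases hQ : IsPGroup p Q
    · rw [if_pos hQ, ← Finset.sum_filter, Finset.sum_const, count_Psi hV Q hQ, nsmul_eq_mul,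
        ← mul_assoc, mul_inv_cancel₀ (by exact_mod_cast (NV_pos Q).ne'), one_mul]
    · rw [if_neg hQ]
      symm
      refine Finset.sum_eq_zero fun w _ => if_neg fun h => hQ ?_
      rw [← h]
      exact Psi_p w
  have h2 : ∀ w : {R : Subgroup H // IsPGroup p R} × V,
      (∑ Q : Subgroup (V ⋊[φ] H), if Psi φ w = Q then (NV Q : ℚ)⁻¹ * f Q else 0) =
      (Nat.card (Subgroup.normalizer (w.1.1 : Set H)) : ℚ) *
        b (w.1.1.map (inr : H →* V ⋊[φ] H)) := by
    intro w
    rw [Finset.sum_ite_eq, if_pos (Finset.mem_univ _), hf]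
    simp only
    unfold Psi
    rw [NV_conj, card_norm_cj, hb, card_norm_inr]
    have h4 : ((NV (w.1.1.map (inr : H →* V ⋊[φ] H)) : ℚ)) ≠ 0 := by
      exact_mod_cast (NV_pos _).ne'
    push_cast
    field_simp
  calc _ = ∑ Q : Subgroup (V ⋊[φ] H), ∑ w : {R : Subgroup H // IsPGroup p R} × V,
        (if Psi φ w = Q then (NV Q : ℚ)⁻¹ * f Q else 0) := Finset.sum_congr rfl fun Q _ => h1 Q
    _ = ∑ w : {R : Subgroup H // IsPGroup p R} × V,
        (Nat.card (Subgroup.normalizer (w.1.1 : Set H)) : ℚ) *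
          b (w.1.1.map (inr : H →* V ⋊[φ] H)) := by
        rw [Finset.sum_comm]
        exact Finset.sum_congr rfl fun w _ => h2 w
    _ = _ := by
        rw [Fintype.sum_prod_type]
        simp only [Finset.sum_const, Finset.card_univ]
        rw [← Finset.smul_sum, nsmul_eq_mul, ← Nat.card_eq_fintype_card]
        congr 1
        rw [← Finset.sum_filter]
        exact (Finset.sum_subtype (p := fun R : Subgroup H => IsPGroup p R)
          (Finset.univ.filter fun R : Subgroup H => IsPGroup p R)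
          (fun R => by simp) (fun R : Subgroup H => (Nat.card (Subgroup.normalizer (R : Set H)) : ℚ)
            * b (R.map (inr : H →* V ⋊[φ] H)))).symm

end sd

/-- **WSM** -/
theorem wsm : Pool.Agent.P8H58.DL.S_WSM := by
  intro p _ V H _ _ _ _ φ hV b hb
  have := Fintype.ofFinite V
  have := Fintype.ofFinite H
  rw [finsum_eq_sum_of_fintype, finsum_eq_sum_of_fintype]
  exact wsm_aux hV b hb

end Pool.Agent.P8H21.DL.Wsm
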